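import Pool.Agent.Lib.MP_b6f35e_al.ZK.Main

/-!
# Rational injectivity of the Farrell-Jones assembly map in degree minus one, for every group

For every group `G` the map from the colimit of the `K_{-1}(ℤ[H])`, `H` the finite subgroups of `G`,
to `K_{-1}(ℤ[G])` has torsion kernel: the assembly map of the Farrell-Jones conjecture for the ring
`ℤ` is rationally injective in degree `-1`, for every group.
-/

set_option autoImplicit false

namespace Pool.Agent.Results.MP_b6f35e_al.DegreeMinusOneInjective

open Pool.Agent.Lib.MPb6f35e.ZK

universe u

/-- Let `G` be a group and let `x` be an element of the colimit of the `K_{-1}(ℤ[H])` over the finite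
subgroups `H` of `G`. If the image of `x` in `K_{-1}(ℤ[G])` has finite order, then `x` has finite
order. -/
theorem result (G : Type u) [Group G] (x : ColimKm1 G) (hx : IsOfFinAddOrder (assembly G x)) :
    IsOfFinAddOrder x :=
  specFinal G x hx

end Pool.Agent.Results.MP_b6f35e_al.DegreeMinusOneInjective
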