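import Pool.Agent.Lib.MP_b6f35e_al.K2.Main

/-!
# The Farrell-Jones assembly map in degree two: the part given by `H_1` and units, for every group

Let `R` be a commutative domain of characteristic zero and `G` a group. Rationally the source of the
assembly map in degree two (for the family of finite subgroups) contains the summand
`H_1^G(E_Fin G; K_1(R[-]))`, which is the tensor product `TGrp R G` of the functors `Z_G(C)_ab` and
`R[C]ˣ` over the finite cyclic subgroups `C` of `G`. The assembly map sends the class of `(C, z, u)` to
the symbol `{z, u}`. The theorem says that this map is well defined, and describes the elements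
whose image has finite order modulo the images of the `K_2(R[H])`, `H` a finite subgroup of `G`: for
infinitely many primes `p` a multiple of such an element comes from elements `z` of centralizers
`Z_G(C)` which are killed by all homomorphisms of `Z_G(C)` to the integers localised at `p`. In
particular such an element has finite order if the groups `Z_G(C)_ab` are finitely generated.
-/

set_option autoImplicit false

namespace Pool.Agent.Results.MP_b6f35e_al.DegreeTwoInjective

open Pool.Agent.Lib.MPb6f35e Pool.Agent.Lib.MPb6f35e.K2

universe u v

/-- Let `R` be a commutative domain of characteristic zero and let `G` be a group. `K_2(R[G])` is the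
center of the stable Steinberg group `St ℕ (R[G])`.

There is a homomorphism `κ` from the tensor product `TGrp R G` to `K_2(R[G])` with
`κ (C, z, u) = {z, u}` (`IsKap`). Let `x` be an element of the tensor product such that a power of `κ x` with
positive exponent is in the subgroup generated by the images of the `K_2(R[H])`, `H` a finite
subgroup of `G`. Then

* for infinitely many primes `p` a positive multiple of `x` is in the subgroup generated by the
  `(C, z, u)` such that `z` is killed by all homomorphisms of `Z_G(C)` to the rational numbers with
  denominator prime to `p`;
* if for every finite cyclic subgroup `C` of `G` and all large primes `p` all such `z` have finite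
  order in the abelianization of `Z_G(C)`, then `x` has finite order;
* if for every finite cyclic subgroup `C` of `G` the abelianization of `Z_G(C)` is finitely
  generated, then `x` has finite order. -/
theorem result (R : Type u) [CommRing R] [IsDomain R] [CharZero R] (G : Type v) [Group G] :
    ∃ κ : TGrp R G → St ℕ (MonoidAlgebra R G), IsKap R G κ ∧
      ∀ (x : TGrp R G) (m : ℕ), 0 < m → κ x ^ m ∈ FinPart R G →
        (∀ M : ℕ, ∃ p, M < p ∧ p.Prime ∧ ∃ k : ℕ, 0 < k ∧ k • x ∈ DSub R G p) ∧
        (NoHidden G → IsOfFinAddOrder x) ∧ (CentFG G → IsOfFinAddOrder x) :=
  K2.main R G

end Pool.Agent.Results.MP_b6f35e_al.DegreeTwoInjective
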