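import Pool.Agent.Lib.MP_b6f35e_al.Z0.Slim

/-!
# The assembly map in degree zero over the integers

The part of degree zero of the source of the assembly map which comes from `K_{-1}(ℤ[H])`, `H` finite,
maps to `K_0(ℤ[G])` up to torsion, for every group `G`; up to the subgroup `DSub G` of classes of
elements which are divisible at a prime dividing the order of `H` it is injective up to torsion, and
under the condition `Cond G` it is injective up to torsion.
-/

set_option autoImplicit false

namespace Pool.Agent.Results.MP_b6f35e_al.DegreeZeroInjective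

open Pool.Agent.Lib.MPb6f35e.Z0S
open Pool.Agent.Lib.MPb6f35e.Z0 (Cond)

universe u

/-- For a group `G`, finite subgroups `H_i`, `z_i` in the centralizer of `H_i`,
`x_i ∈ K_0(ℤ[H_i][t, t⁻¹])` and integers `ε_i`: if the class of `Σ ε_i (H_i, z_i, [x_i])` in `S0 G`
has finite order, then `Σ ε_i (x_i(z_i) - x_i(1)) ∈ K_0(ℤ[G])` has finite order; and if
`m [ℤ[G]] + Σ ε_i (x_i(z_i) - x_i(1))` has finite order, then `m = 0`, a positive multiple of the
class of `Σ ε_i (H_i, z_i, [x_i])` lies in `DSub G`, and if `G` satisfies `Cond` this class has finite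
order. -/
theorem result (G : Type u) [Group G] (n : ℕ) (a : Fin n → Lft G) (ε : Fin n → ℤ) :
    (IsOfFinAddOrder (∑ i, ε i • (a i).src) → IsOfFinAddOrder (∑ i, ε i • (a i).img)) ∧
    ∀ m : ℤ, IsOfFinAddOrder (m • KZ.one G + ∑ i, ε i • (a i).img) →
      m = 0 ∧ (∃ k : ℕ, 0 < k ∧ k • ∑ i, ε i • (a i).src ∈ DSub G) ∧
      (Cond G → IsOfFinAddOrder (∑ i, ε i • (a i).src)) :=
  final G n a ε

end Pool.Agent.Results.MP_b6f35e_al.DegreeZeroInjective
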